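import Pool.Agent.W221.NS.Stm2

set_option autoImplicit false
set_option linter.unusedSectionVars false
set_option linter.unusedVariables false

/-!
ME-TD: the operator `T` applied to a derivative.
-/

open MeasureTheory Set Metric
open scoped ContDiff ENNReal Topology

namespace Pool.Agent.W22.ME.TD

open H459R3.NS W221.NS

/-! ### derivatives -/

lemma pd_smooth {f : V → ℝ} (hf : ContDiff ℝ ∞ f) (i : Fin 3) : ContDiff ℝ ∞ (pd i f) := by
  unfold pd
  exact (hf.fderiv_right (m := ∞) (by simp)).clm_apply contDiff_const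

lemma pd_sub {f g : V → ℝ} (hf : ContDiff ℝ ∞ f) (hg : ContDiff ℝ ∞ g) (i : Fin 3) :
    pd i (fun x => f x - g x) = fun x => pd i f x - pd i g x := by
  funext x
  unfold pd
  rw [fderiv_fun_sub (hf.differentiable (by simp) x) (hg.differentiable (by simp) x)]
  rfl

lemma pd_mul {f g : V → ℝ} (hf : ContDiff ℝ ∞ f) (hg : ContDiff ℝ ∞ g) (i : Fin 3) (x : V) :
    pd i (fun x => f x * g x) x = f x * pd i g x + g x * pd i f x := by
  unfold pd
  rw [fderiv_fun_mul (hf.differentiable (by simp) x) (hg.differentiable (by simp) x)]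
  simp

lemma pd_sum {F : Fin 3 → V → ℝ} (hF : ∀ j, ContDiff ℝ ∞ (F j)) (i : Fin 3) :
    pd i (fun x => ∑ j, F j x) = fun x => ∑ j, pd i (F j) x := by
  funext x
  unfold pd
  rw [fderiv_fun_sum (fun j _ => (hF j).differentiable (by simp) x)]
  simp

lemma pd_congr {f g : V → ℝ} {z : V} (h : f =ᶠ[𝓝 z] g) (i : Fin 3) : pd i f z = pd i g z := by
  unfold pd
  rw [h.fderiv_eq]

lemma pd_const (c : ℝ) (i : Fin 3) (z : V) : pd i (fun _ : V => c) z = 0 := by
  unfold pd
  rw [fderiv_fun_const]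
  rfl

lemma pd_comm {f : V → ℝ} (hf : ContDiff ℝ ∞ f) (i j : Fin 3) :
    pd i (pd j f) = pd j (pd i f) := by
  funext x
  have h2 : ContDiffAt ℝ 2 f x := (hf.of_le (by norm_cast)).contDiffAt
  have hs : IsSymmSndFDerivAt ℝ f x := by
    apply h2.isSymmSndFDerivAt
    simp [minSmoothness_of_isRCLikeNormedField]
  have hd : DifferentiableAt ℝ (fderiv ℝ f) x :=
    ((hf.fderiv_right (m := ∞) (by norm_cast)).differentiable (by simp)) x
  have e1 : ∀ a b : V, fderiv ℝ (fun y => fderiv ℝ f y b) x a = fderiv ℝ (fderiv ℝ f) x a b := by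
    intro a b
    rw [fderiv_clm_apply hd (differentiableAt_const _)]
    simp
  show fderiv ℝ (fun y => fderiv ℝ f y (Pi.single j 1)) x (Pi.single i 1) =
    fderiv ℝ (fun y => fderiv ℝ f y (Pi.single i 1)) x (Pi.single j 1)
  rw [e1, e1]
  exact hs _ _

lemma lap_smooth {f : V → ℝ} (hf : ContDiff ℝ ∞ f) : ContDiff ℝ ∞ (lap f) := by
  unfold lap
  exact ContDiff.sum fun i _ => pd_smooth (pd_smooth hf i) i

lemma lap_pd {F : V → ℝ} (hF : ContDiff ℝ ∞ F) (j : Fin 3) (z : V) :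
    lap (pd j F) z = pd j (lap F) z := by
  have h1 : pd j (lap F) z = ∑ k, pd j (pd k (pd k F)) z :=
    congrFun (pd_sum (fun k => pd_smooth (pd_smooth hF k) k) j) z
  rw [h1]
  unfold lap
  refine Finset.sum_congr rfl fun k _ => ?_
  rw [pd_comm hF k j, pd_comm (pd_smooth hF k) k j]

lemma comp_smooth {v : V → V} (hv : ContDiff ℝ ∞ v) (i : Fin 3) :
    ContDiff ℝ ∞ (fun y => v y i) := contDiff_pi.1 hv i

lemma nsq_nonneg (v : V → V) (x : V) : 0 ≤ nsq v x := Finset.sum_nonneg fun _ _ => sq_nonneg _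

lemma nsq_cont {v : V → V} (hv : Continuous v) : Continuous (nsq v) := by
  unfold nsq
  exact continuous_finsetSum _ fun i _ => ((continuous_apply i).comp hv).pow 2

lemma intOn {f : V → ℝ} (hf : Continuous f) (a : V) (r : ℝ) : IntegrableOn f (ball a r) :=
  (hf.locallyIntegrable.integrableOn_isCompact (isCompact_closedBall a r)).mono_set
    ball_subset_closedBall

lemma hcs {φ : V → ℝ} {a : V} {r : ℝ} (h0 : ∀ z ∉ ball a r, φ z = 0) : HasCompactSupport φ :=
  HasCompactSupport.intro (isCompact_closedBall a r)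
    fun z hz => h0 z fun h => hz (ball_subset_closedBall h)

lemma pd_out {φ : V → ℝ} (hφ : ContDiff ℝ ∞ φ) {a : V} {r : ℝ} (hr : r ≠ 0)
    (h0 : ∀ z ∉ ball a r, φ z = 0) (i : Fin 3) : ∀ z ∉ ball a r, pd i φ z = 0 := by
  have h1 : IsClosed {z | pd i φ z = 0} := isClosed_eq (pd_smooth hφ i).continuous continuous_const
  have h2 : (closedBall a r)ᶜ ⊆ {z | pd i φ z = 0} := by
    intro z hz
    have h3 : φ =ᶠ[nhds z] fun _ => 0 := by
      filter_upwards [isClosed_closedBall.isOpen_compl.mem_nhds hz] with y hy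
      exact h0 y fun h => hy (ball_subset_closedBall h)
    show pd i φ z = 0
    unfold pd
    rw [h3.fderiv_eq, fderiv_fun_const]
    rfl
  have h4 := closure_minimal h2 h1
  rw [closure_compl, interior_closedBall a hr] at h4
  exact fun z hz => h4 hz

lemma sq_mono {f : V → ℝ} (hf : Continuous f) {a b : V} {r s : ℝ} (h : ball a r ⊆ ball b s) :
    ∫ z in ball a r, f z ^ 2 ≤ ∫ z in ball b s, f z ^ 2 := by
  refine setIntegral_mono_set (intOn (hf.pow 2) b s)
    (Filter.Eventually.of_forall fun z => sq_nonneg _) ?_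
  exact LE.le.eventuallyLE h

/-- The norm of a linear form. -/
lemma clm_norm_le (L : V →L[ℝ] ℝ) (G : ℝ) (hL : ∀ i, |L (Pi.single i 1)| ≤ G) :
    ‖L‖ ≤ 3 * G := by
  have hG : 0 ≤ G := (abs_nonneg _).trans (hL 0)
  refine L.opNorm_le_bound (by positivity) fun w => ?_
  have h1 : w = ∑ i, w i • (Pi.single i (1 : ℝ) : V) := by
    ext j
    rw [Finset.sum_apply, Finset.sum_eq_single j]
    · simp
    · intro b _ hb
      simp [Pi.single_eq_of_ne hb.symm]
    · intro h
      exact absurd (Finset.mem_univ j) h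
  have h2 : L w = ∑ i, w i * L (Pi.single i 1) := by
    conv_lhs => rw [h1]
    rw [map_sum]
    exact Finset.sum_congr rfl fun i _ => by rw [map_smul, smul_eq_mul]
  rw [h2]
  calc ‖∑ i, w i * L (Pi.single i 1)‖ ≤ ∑ i, ‖w i * L (Pi.single i 1)‖ := norm_sum_le _ _
    _ ≤ ∑ _i : Fin 3, ‖w‖ * G := by
        refine Finset.sum_le_sum fun i _ => ?_
        rw [norm_mul]
        exact mul_le_mul (norm_le_pi_norm w i) (hL i) (norm_nonneg _) (norm_nonneg _)
    _ = 3 * G * ‖w‖ := by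
        rw [Finset.sum_const, Finset.card_univ, Fintype.card_fin]
        simp only [nsmul_eq_mul]
        push_cast
        ring

/-! ### the sup bound for harmonic functions -/

lemma sup_bound (h : S_HARM) : ∃ C : ℝ, 0 < C ∧ ∀ F : V → ℝ, ContDiff ℝ ∞ F →
    (∀ x ∈ ball (0 : V) 2, lap F x = 0) → ∀ z ∈ ball (0 : V) 1,
      F z ^ 2 ≤ C * ∫ x in ball (0 : V) 2, F x ^ 2 := by
  obtain ⟨C, hC, h⟩ := h
  refine ⟨2 + 9 / 2 * C, by positivity, fun F hF hl z hz => ?_⟩
  set I := ∫ x in ball (0 : V) 2, F x ^ 2 with hI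
  have hI0 : 0 ≤ I := integral_nonneg fun x => sq_nonneg _
  have hz1 : dist z 0 < 1 := hz
  have hsub : ball z 1 ⊆ ball (0 : V) 2 := ball_subset_ball' (by linarith)
  have hsub' : ball z (1 / 2) ⊆ ball (0 : V) 2 := ball_subset_ball' (by linarith)
  set G := √(C * I) with hG
  have hG2 : G ^ 2 = C * I := Real.sq_sqrt (by positivity)
  have hG0 : 0 ≤ G := Real.sqrt_nonneg _
  have hgr : ∀ y ∈ ball z (1 / 2), ∀ i, |pd i F y| ≤ G := by
    intro y hy i
    have h1 := (h F hF z 1 one_pos (fun x hx => hl x (hsub hx)) y hy i).1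
    have h2 : ∫ x in ball z 1, F x ^ 2 ≤ I := sq_mono hF.continuous hsub
    apply Real.abs_le_sqrt
    refine h1.trans ?_
    rw [one_pow, inv_one, mul_one]
    exact mul_le_mul_of_nonneg_left h2 hC.le
  have hmv : ∀ y ∈ ball z (1 / 2), F z ^ 2 ≤ 2 * F y ^ 2 + 9 / 2 * (C * I) := by
    intro y hy
    have h1 := (convex_ball z (1 / 2)).norm_image_sub_le_of_norm_fderiv_le
      (f := F) (C := 3 * G) (fun x _ => hF.differentiable (by simp) x)
      (fun x hx => clm_norm_le _ G fun j => hgr x hx j) hy (mem_ball_self (by norm_num))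
    rw [Real.norm_eq_abs] at h1
    have h2 : ‖z - y‖ ≤ 1 / 2 := by
      rw [← dist_eq_norm, dist_comm]
      exact (mem_ball.1 hy).le
    have h3 : |F z - F y| ≤ 3 / 2 * G := by
      refine h1.trans ?_
      calc 3 * G * ‖z - y‖ ≤ 3 * G * (1 / 2) := mul_le_mul_of_nonneg_left h2 (by positivity)
        _ = 3 / 2 * G := by ring
    have h4 : (F z - F y) ^ 2 ≤ (3 / 2 * G) ^ 2 := sq_le_sq' (by linarith [(abs_le.1 h3).1]) (abs_le.1 h3).2
    rw [mul_pow, hG2] at h4
    nlinarith [sq_nonneg (F z - 2 * F y)]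
  have hvol : ∫ _y in ball z (1 / 2), (F z ^ 2 : ℝ) = F z ^ 2 := by
    rw [setIntegral_const, smul_eq_mul, Measure.real, Real.volume_pi_ball z (by norm_num),
      ENNReal.toReal_ofReal (by positivity)]
    norm_num
  have hint : ∫ y in ball z (1 / 2), (F z ^ 2 : ℝ) ≤
      ∫ y in ball z (1 / 2), (2 * F y ^ 2 + 9 / 2 * (C * I)) := by
    refine setIntegral_mono_on (intOn continuous_const _ _)
      (intOn ((continuous_const.mul (hF.continuous.pow 2)).add continuous_const) _ _)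
      measurableSet_ball fun y hy => hmv y hy
  rw [hvol] at hint
  have h5 : ∫ y in ball z (1 / 2), (2 * F y ^ 2 + 9 / 2 * (C * I)) =
      2 * (∫ y in ball z (1 / 2), F y ^ 2) + 9 / 2 * (C * I) := by
    have i1 : IntegrableOn (fun y => 2 * F y ^ 2) (ball z (1 / 2)) :=
      intOn (continuous_const.mul (hF.continuous.pow 2)) _ _
    have i2 : IntegrableOn (fun _ : V => 9 / 2 * (C * I)) (ball z (1 / 2)) :=
      intOn continuous_const _ _
    rw [integral_add i1 i2, integral_const_mul]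
    congr 1
    rw [setIntegral_const, smul_eq_mul, Measure.real, Real.volume_pi_ball z (by norm_num),
      ENNReal.toReal_ofReal (by positivity)]
    norm_num
  rw [h5] at hint
  have h6 : ∫ y in ball z (1 / 2), F y ^ 2 ≤ I := sq_mono hF.continuous hsub'
  linarith

/-! ### functions of compact support -/

lemma T4_mul {a b : V → ℝ} (ha : T4 a) (hb : ContDiff ℝ ∞ b) : T4 (fun y => a y * b y) :=
  ⟨ha.1.mul hb, fun z hz => by show a z * b z = 0; rw [ha.2 z hz, zero_mul]⟩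

lemma T4_sub {a b : V → ℝ} (ha : T4 a) (hb : T4 b) : T4 (fun y => a y - b y) :=
  ⟨ha.1.sub hb.1, fun z hz => by show a z - b z = 0; rw [ha.2 z hz, hb.2 z hz, sub_zero]⟩

lemma T4_add {a b : V → ℝ} (ha : T4 a) (hb : T4 b) : T4 (fun y => a y + b y) :=
  ⟨ha.1.add hb.1, fun z hz => by show a z + b z = 0; rw [ha.2 z hz, hb.2 z hz, add_zero]⟩

lemma T4_pd {a : V → ℝ} (ha : T4 a) (i : Fin 3) : T4 (pd i a) :=
  ⟨pd_smooth ha.1 i, pd_out ha.1 (by norm_num) ha.2 i⟩

lemma T4_chi : T4 chi :=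
  ⟨chi.contDiff, fun z hz => chi.zero_of_le_dist (by
    show (4 : ℝ) ≤ dist z 0
    exact not_lt.1 hz)⟩

lemma chi_one {z : V} (hz : z ∈ ball (0 : V) 2) : (chi : V → ℝ) =ᶠ[𝓝 z] fun _ => 1 := by
  filter_upwards [isOpen_ball.mem_nhds hz] with y hy
  exact chi.one_of_mem_closedBall (ball_subset_closedBall hy)

lemma pd_chi_zero (i : Fin 3) {z : V} (hz : z ∈ ball (0 : V) 2) : pd i chi z = 0 := by
  rw [pd_congr (chi_one hz), pd_const]

lemma pd_pd_chi_zero (i j : Fin 3) {z : V} (hz : z ∈ ball (0 : V) 2) :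
    pd i (pd j chi) z = 0 := by
  have h : pd j chi =ᶠ[𝓝 z] fun _ => 0 := by
    filter_upwards [isOpen_ball.mem_nhds hz] with y hy
    exact pd_chi_zero j hy
  rw [pd_congr h, pd_const]

lemma T4_bdd {a : V → ℝ} (ha : T4 a) : ∃ M : ℝ, 0 ≤ M ∧ ∀ z, |a z| ≤ M := by
  obtain ⟨M, hM⟩ := (hcs ha.2).exists_bound_of_continuous ha.1.continuous
  exact ⟨|M|, abs_nonneg _, fun z => (hM z).trans (le_abs_self _)⟩

lemma T4_int {a : V → ℝ} (ha : T4 a) : Integrable a :=
  ha.1.continuous.integrable_of_hasCompactSupport (hcs ha.2)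

lemma T4_sq_int {a : V → ℝ} (ha : T4 a) : Integrable (fun y => a y ^ 2) := by
  have := T4_int (T4_mul ha ha.1)
  refine this.congr (Filter.Eventually.of_forall fun y => ?_)
  show a y * a y = a y ^ 2
  ring

lemma A2_nonneg (r : ℝ) (f : V → V) : 0 ≤ A2 0 r f := integral_nonneg fun z => nsq_nonneg f z

/-- multiplication by a bounded function -/
lemma coef {a : V → ℝ} (ha : T4 a) {M : ℝ} (hM : ∀ z, |a z| ≤ M) {f : V → V}
    (hf : ContDiff ℝ ∞ f) (j : Fin 3) : ∫ y, (a y * f y j) ^ 2 ≤ M ^ 2 * A2 0 4 f := by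
  have h1 : ∫ y, (a y * f y j) ^ 2 = ∫ y in ball (0 : V) 4, (a y * f y j) ^ 2 := by
    rw [setIntegral_eq_integral_of_forall_compl_eq_zero]
    intro y hy
    rw [ha.2 y hy, zero_mul]; norm_num
  rw [h1, A2, ← integral_const_mul]
  refine setIntegral_mono_on (intOn ((ha.1.continuous.mul (comp_smooth hf j).continuous).pow 2) _ _)
    (intOn (continuous_const.mul (nsq_cont hf.continuous)) _ _) measurableSet_ball fun y _ => ?_
  rw [mul_pow]
  have h2 : a y ^ 2 ≤ M ^ 2 := by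
    rw [← sq_abs (a y)]
    exact pow_le_pow_left₀ (abs_nonneg _) (hM y) 2
  have h3 : f y j ^ 2 ≤ nsq f y :=
    Finset.single_le_sum (f := fun i => f y i ^ 2) (fun i _ => sq_nonneg _) (Finset.mem_univ j)
  exact mul_le_mul h2 h3 (sq_nonneg _) (sq_nonneg _)

lemma coef_sub {a b : V → ℝ} (ha : T4 a) (hb : T4 b) {M : ℝ} (hM : ∀ z, |a z| ≤ M)
    (hM' : ∀ z, |b z| ≤ M) {f : V → V} (hf : ContDiff ℝ ∞ f) (i j : Fin 3) :
    ∫ y, (a y * f y j - b y * f y i) ^ 2 ≤ 4 * M ^ 2 * A2 0 4 f := by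
  have h1 := coef ha hM hf j
  have h2 := coef hb hM' hf i
  have i1 := T4_sq_int (T4_mul ha (comp_smooth hf j))
  have i2 := T4_sq_int (T4_mul hb (comp_smooth hf i))
  have i3 := T4_sq_int (T4_sub (T4_mul ha (comp_smooth hf j)) (T4_mul hb (comp_smooth hf i)))
  have h3 : ∫ y, (a y * f y j - b y * f y i) ^ 2 ≤
      ∫ y, (2 * (a y * f y j) ^ 2 + 2 * (b y * f y i) ^ 2) := by
    refine integral_mono i3 ((i1.const_mul 2).add (i2.const_mul 2)) fun y => ?_
    show (a y * f y j - b y * f y i) ^ 2 ≤ 2 * (a y * f y j) ^ 2 + 2 * (b y * f y i) ^ 2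
    nlinarith [sq_nonneg (a y * f y j + b y * f y i)]
  rw [integral_add (i1.const_mul 2) (i2.const_mul 2), integral_const_mul,
    integral_const_mul] at h3
  linarith

/-! ### the potential -/

section green

variable {g : V → ℝ} {C : ℝ}

lemma KK_int (hg : IsGreen g C) {a : V → ℝ} (ha : T4 a) (x : V) :
    Integrable (fun y => g (x - y) * a y) := by
  have h := HasCompactSupport.convolutionExists_left (ContinuousLinearMap.mul ℝ ℝ)
    (μ := (volume : Measure V)) (hcs ha.2) ha.1.continuous hg.loc x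
  refine Integrable.congr h (Filter.Eventually.of_forall fun y => ?_)
  show a y * g (x - y) = g (x - y) * a y
  ring

lemma KK_sub (hg : IsGreen g C) {a b : V → ℝ} (ha : T4 a) (hb : T4 b) :
    KK g (fun y => a y - b y) = fun x => KK g a x - KK g b x := by
  funext x
  unfold KK
  rw [← integral_sub (KK_int hg ha x) (KK_int hg hb x)]
  refine integral_congr_ae (Filter.Eventually.of_forall fun y => ?_)
  show g (x - y) * (a y - b y) = g (x - y) * a y - g (x - y) * b y
  ring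

lemma KK_sum (hg : IsGreen g C) {a : Fin 3 → V → ℝ} (ha : ∀ j, T4 (a j)) :
    KK g (fun y => ∑ j, a j y) = fun x => ∑ j, KK g (a j) x := by
  funext x
  unfold KK
  rw [← integral_finsetSum _ fun j _ => KK_int hg (ha j) x]
  refine integral_congr_ae (Filter.Eventually.of_forall fun y => ?_)
  show g (x - y) * (∑ j, a j y) = ∑ j, g (x - y) * a j y
  rw [Finset.mul_sum]

/-- the derivatives of the potential of a function which vanishes near a point are harmonic there -/
lemma harm (hg : IsGreen g C) {a : V → ℝ} (ha : T4 a) (h0 : ∀ z ∈ ball (0 : V) 2, a z = 0)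
    (j : Fin 3) : ∀ z ∈ ball (0 : V) 2, lap (pd j (KK g a)) z = 0 := by
  intro z hz
  rw [lap_pd (hg.smooth a ha)]
  have h1 : lap (KK g a) =ᶠ[𝓝 z] fun _ => (∫ y, a y) / 16 ^ 3 := by
    filter_upwards [isOpen_ball.mem_nhds hz] with x hx
    have h2 := hg.eqn a ha x (ball_subset_ball (by norm_num) hx)
    rw [h0 x hx] at h2
    linarith
  rw [pd_congr h1, pd_const]

end green

/-! ### the identity -/

/-- `χ a_ij` -/
noncomputable def al (f : V → V) (i j : Fin 3) : V → ℝ :=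
  fun y => chi y * (pd i (fun w => f w j) y - pd j (fun w => f w i) y)

/-- `(∂ₗχ) a_ij` -/
noncomputable def ga (f : V → V) (l i j : Fin 3) : V → ℝ :=
  fun y => pd l chi y * (pd i (fun w => f w j) y - pd j (fun w => f w i) y)

/-- `(∂ᵢχ) f_j - (∂ⱼχ) f_i` -/
noncomputable def vp (f : V → V) (i j : Fin 3) : V → ℝ :=
  fun y => pd i chi y * f y j - pd j chi y * f y i

/-- `(∂ᵢ∂ₗχ) f_j - (∂ⱼ∂ₗχ) f_i` -/
noncomputable def ps (f : V → V) (l i j : Fin 3) : V → ℝ :=
  fun y => pd i (pd l chi) y * f y j - pd j (pd l chi) y * f y i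

/-- `χ f_i` -/
noncomputable def uu (f : V → V) (i : Fin 3) : V → ℝ := fun y => chi y * f y i

/-- `(∂ₗχ) f_i` -/
noncomputable def ww (f : V → V) (l i : Fin 3) : V → ℝ := fun y => pd l chi y * f y i

variable {f : V → V}

lemma curl_smooth (hf : ContDiff ℝ ∞ f) (i j : Fin 3) :
    ContDiff ℝ ∞ (fun y => pd i (fun w => f w j) y - pd j (fun w => f w i) y) :=
  (pd_smooth (comp_smooth hf j) i).sub (pd_smooth (comp_smooth hf i) j)

lemma T4_al (hf : ContDiff ℝ ∞ f) (i j : Fin 3) : T4 (al f i j) :=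
  T4_mul T4_chi (curl_smooth hf i j)

lemma T4_ga (hf : ContDiff ℝ ∞ f) (l i j : Fin 3) : T4 (ga f l i j) :=
  T4_mul (T4_pd T4_chi l) (curl_smooth hf i j)

lemma T4_vp (hf : ContDiff ℝ ∞ f) (i j : Fin 3) : T4 (vp f i j) :=
  T4_sub (T4_mul (T4_pd T4_chi i) (comp_smooth hf j)) (T4_mul (T4_pd T4_chi j) (comp_smooth hf i))

lemma T4_ps (hf : ContDiff ℝ ∞ f) (l i j : Fin 3) : T4 (ps f l i j) :=
  T4_sub (T4_mul (T4_pd (T4_pd T4_chi l) i) (comp_smooth hf j))
    (T4_mul (T4_pd (T4_pd T4_chi l) j) (comp_smooth hf i))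

lemma T4_uu (hf : ContDiff ℝ ∞ f) (i : Fin 3) : T4 (uu f i) := T4_mul T4_chi (comp_smooth hf i)

lemma T4_ww (hf : ContDiff ℝ ∞ f) (l i : Fin 3) : T4 (ww f l i) :=
  T4_mul (T4_pd T4_chi l) (comp_smooth hf i)

lemma beta_eq (hf : ContDiff ℝ ∞ f) (l i j : Fin 3) :
    (fun y => chi y * (pd i (pd l (fun w => f w j)) y - pd j (pd l (fun w => f w i)) y)) =
      fun y => pd l (al f i j) y - ga f l i j y := by
  funext y
  have h1 : pd l (al f i j) y = chi y * pd l (fun y => pd i (fun w => f w j) y -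
      pd j (fun w => f w i) y) y + (pd i (fun w => f w j) y - pd j (fun w => f w i) y) *
      pd l chi y := pd_mul T4_chi.1 (curl_smooth hf i j) l y
  rw [h1, pd_sub (pd_smooth (comp_smooth hf j) i) (pd_smooth (comp_smooth hf i) j),
    pd_comm (comp_smooth hf j) i l, pd_comm (comp_smooth hf i) j l, ga]
  ring

lemma al_eq (hf : ContDiff ℝ ∞ f) (i j : Fin 3) :
    al f i j = fun y => (pd i (uu f j) y - pd j (uu f i) y) - vp f i j y := by
  funext y
  have h1 : pd i (uu f j) y = chi y * pd i (fun w => f w j) y + f y j * pd i chi y :=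
    pd_mul T4_chi.1 (comp_smooth hf j) i y
  have h2 : pd j (uu f i) y = chi y * pd j (fun w => f w i) y + f y i * pd j chi y :=
    pd_mul T4_chi.1 (comp_smooth hf i) j y
  rw [h1, h2, al, vp]
  ring

lemma ga_eq (hf : ContDiff ℝ ∞ f) (l i j : Fin 3) :
    ga f l i j = fun y => (pd i (ww f l j) y - pd j (ww f l i) y) - ps f l i j y := by
  funext y
  have h1 : pd i (ww f l j) y = pd l chi y * pd i (fun w => f w j) y + f y j * pd i (pd l chi) y :=
    pd_mul (T4_pd T4_chi l).1 (comp_smooth hf j) i y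
  have h2 : pd j (ww f l i) y = pd l chi y * pd j (fun w => f w i) y + f y i * pd j (pd l chi) y :=
    pd_mul (T4_pd T4_chi l).1 (comp_smooth hf i) j y
  rw [h1, h2, ga, ps]
  ring

variable {g : V → ℝ} {C : ℝ}

lemma KK_al (hg : IsGreen g C) (hf : ContDiff ℝ ∞ f) (i j : Fin 3) :
    KK g (al f i j) = fun x => (pd i (KK g (uu f j)) x - pd j (KK g (uu f i)) x) -
      KK g (vp f i j) x := by
  rw [al_eq hf, KK_sub hg (T4_sub (T4_pd (T4_uu hf j) i) (T4_pd (T4_uu hf i) j)) (T4_vp hf i j),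
    KK_sub hg (T4_pd (T4_uu hf j) i) (T4_pd (T4_uu hf i) j), hg.pdK _ (T4_uu hf j),
    hg.pdK _ (T4_uu hf i)]

lemma KK_ga (hg : IsGreen g C) (hf : ContDiff ℝ ∞ f) (l i j : Fin 3) :
    KK g (ga f l i j) = fun x => (pd i (KK g (ww f l j)) x - pd j (KK g (ww f l i)) x) -
      KK g (ps f l i j) x := by
  rw [ga_eq hf, KK_sub hg (T4_sub (T4_pd (T4_ww hf l j) i) (T4_pd (T4_ww hf l i) j))
    (T4_ps hf l i j), KK_sub hg (T4_pd (T4_ww hf l j) i) (T4_pd (T4_ww hf l i) j),
    hg.pdK _ (T4_ww hf l j), hg.pdK _ (T4_ww hf l i)]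

lemma KK_beta (hg : IsGreen g C) (hf : ContDiff ℝ ∞ f) (l i j : Fin 3) :
    KK g (fun y => chi y * (pd i (pd l (fun w => f w j)) y - pd j (pd l (fun w => f w i)) y)) =
      fun x => pd l (KK g (al f i j)) x - KK g (ga f l i j) x := by
  rw [beta_eq hf, KK_sub hg (T4_pd (T4_al hf i j) l) (T4_ga hf l i j), hg.pdK _ (T4_al hf i j)]

/-- the harmonic part -/
noncomputable def HH (g : V → ℝ) (f : V → V) (l : Fin 3) (z : V) : V := fun i =>
  -(∑ j, pd j (pd l (KK g (vp f i j))) z) - ∑ j, pd j (KK g (ga f l i j)) z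

lemma HH_smooth (hg : IsGreen g C) (hf : ContDiff ℝ ∞ f) (l : Fin 3) :
    ContDiff ℝ ∞ (HH g f l) := by
  refine contDiff_pi.2 fun i => ?_
  exact (ContDiff.sum fun j _ => pd_smooth (pd_smooth (hg.smooth _ (T4_vp hf i j)) l) j).neg.sub
    (ContDiff.sum fun j _ => pd_smooth (hg.smooth _ (T4_ga hf l i j)) j)

lemma TT_id (hg : IsGreen g C) (hf : ContDiff ℝ ∞ f) (l : Fin 3) {z : V}
    (hz : z ∈ ball (0 : V) 2) (i : Fin 3) :
    TT g (fun y i => pd l (fun w => f w i) y) z i = pd l (fun w => f w i) z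
      + pd i (pd l (KK g (fun y => ∑ j, pd j (fun w => chi w * f w j) y))) z + HH g f l z i := by
  have hT : TT g (fun y i => pd l (fun w => f w i) y) z i =
      ∑ j, pd j (KK g (fun y => chi y * (pd i (pd l (fun w => f w j)) y -
        pd j (pd l (fun w => f w i)) y))) z := rfl
  have s1 : ∀ i, ContDiff ℝ ∞ (KK g (uu f i)) := fun i => hg.smooth _ (T4_uu hf i)
  have s2 : ∀ i j, ContDiff ℝ ∞ (KK g (vp f i j)) := fun i j => hg.smooth _ (T4_vp hf i j)
  have s3 : ∀ i j, ContDiff ℝ ∞ (KK g (ga f l i j)) := fun i j => hg.smooth _ (T4_ga hf l i j)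
  have s4 : ∀ i j, ContDiff ℝ ∞ (KK g (al f i j)) := fun i j => hg.smooth _ (T4_al hf i j)
  have hterm : ∀ j, pd j (KK g (fun y => chi y * (pd i (pd l (fun w => f w j)) y -
        pd j (pd l (fun w => f w i)) y))) z =
      pd j (pd l (pd i (KK g (uu f j)))) z - pd j (pd l (pd j (KK g (uu f i)))) z -
        pd j (pd l (KK g (vp f i j))) z - pd j (KK g (ga f l i j)) z := by
    intro j
    rw [KK_beta hg hf, pd_sub (pd_smooth (s4 i j) l) (s3 i j), KK_al hg hf,
      pd_sub ((pd_smooth (s1 j) i).sub (pd_smooth (s1 i) j)) (s2 i j),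
      pd_sub (pd_smooth (s1 j) i) (pd_smooth (s1 i) j),
      pd_sub ((pd_smooth (pd_smooth (s1 j) i) l).sub (pd_smooth (pd_smooth (s1 i) j) l))
        (pd_smooth (s2 i j) l),
      pd_sub (pd_smooth (pd_smooth (s1 j) i) l) (pd_smooth (pd_smooth (s1 i) j) l)]
  have hA : pd i (pd l (KK g (fun y => ∑ j, pd j (fun w => chi w * f w j) y))) z =
      ∑ j, pd j (pd l (pd i (KK g (uu f j)))) z := by
    have e1 : KK g (fun y => ∑ j, pd j (fun w => chi w * f w j) y) =
        fun x => ∑ j, pd j (KK g (uu f j)) x := by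
      have e2 : KK g (fun y => ∑ j, pd j (uu f j) y) = fun x => ∑ j, KK g (pd j (uu f j)) x :=
        KK_sum hg fun j => T4_pd (T4_uu hf j) j
      rw [show (fun y => ∑ j, pd j (fun w => chi w * f w j) y) =
        (fun y => ∑ j, pd j (uu f j) y) from rfl, e2]
      funext x
      exact Finset.sum_congr rfl fun j _ => by rw [hg.pdK _ (T4_uu hf j)]
    rw [e1, pd_sum (fun j => pd_smooth (s1 j) j), pd_sum (fun j => pd_smooth (pd_smooth (s1 j) j) l)]
    refine Finset.sum_congr rfl fun j _ => ?_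
    rw [pd_comm (s1 j) l j, pd_comm (pd_smooth (s1 j) l) i j, pd_comm (s1 j) i l]
  have hB : ∑ j, pd j (pd l (pd j (KK g (uu f i)))) z = -pd l (fun w => f w i) z := by
    have e1 : ∑ j, pd j (pd l (pd j (KK g (uu f i)))) z = pd l (lap (KK g (uu f i))) z := by
      have e2 : pd l (lap (KK g (uu f i))) z = ∑ j, pd l (pd j (pd j (KK g (uu f i)))) z :=
        congrFun (pd_sum (fun k => pd_smooth (pd_smooth (s1 i) k) k) l) z
      rw [e2]
      refine Finset.sum_congr rfl fun j _ => ?_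
      rw [pd_comm (pd_smooth (s1 i) j) l j]
    have e3 : lap (KK g (uu f i)) =ᶠ[𝓝 z] fun x => (∫ y, uu f i y) / 16 ^ 3 - f x i := by
      filter_upwards [isOpen_ball.mem_nhds hz] with x hx
      have h2 := hg.eqn _ (T4_uu hf i) x (ball_subset_ball (by norm_num) hx)
      have h3 : uu f i x = f x i := by
        show chi x * f x i = f x i
        rw [chi.one_of_mem_closedBall (ball_subset_closedBall hx), one_mul]
      rw [h3] at h2
      linarith
    rw [e1, pd_congr e3, pd_sub contDiff_const (comp_smooth hf i)]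
    show pd l (fun _ : V => (∫ y, uu f i y) / 16 ^ 3) z - pd l (fun w => f w i) z = _
    rw [pd_const, zero_sub]
  rw [hT, Finset.sum_congr rfl fun j _ => hterm j, hA, HH]
  simp only [Finset.sum_sub_distrib]
  rw [hB]
  ring

/-! ### the bounds -/

theorem t_TD (h : S_HARM) : S_TD := by
  intro g C hg
  obtain ⟨Cs, hCs, hs⟩ := sup_bound h
  obtain ⟨Ch, hCh, hh⟩ := h
  choose M1 hM1 using fun i => T4_bdd (T4_pd T4_chi i)
  choose M2 hM2 using fun i j => T4_bdd (T4_pd (T4_pd T4_chi j) i)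
  set M : ℝ := (∑ i, M1 i) + ∑ i, ∑ j, M2 i j with hM
  have hS1 : 0 ≤ ∑ i, M1 i := Finset.sum_nonneg fun i _ => (hM1 i).1
  have hS2 : 0 ≤ ∑ i, ∑ j, M2 i j :=
    Finset.sum_nonneg fun i _ => Finset.sum_nonneg fun j _ => (hM2 i j).1
  have hM0 : 0 ≤ M := add_nonneg hS1 hS2
  have b1 : ∀ i z, |pd i chi z| ≤ M := by
    intro i z
    have := Finset.single_le_sum (f := M1) (fun i _ => (hM1 i).1) (Finset.mem_univ i)
    linarith [(hM1 i).2 z]
  have b2 : ∀ i j z, |pd i (pd j chi) z| ≤ M := by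
    intro i j z
    have h1 := Finset.single_le_sum (f := fun j => M2 i j) (fun j _ => (hM2 i j).1)
      (Finset.mem_univ j)
    have h2 := Finset.single_le_sum (f := fun i => ∑ j, M2 i j)
      (fun i _ => Finset.sum_nonneg fun j _ => (hM2 i j).1) (Finset.mem_univ i)
    have h3 := (hM2 i j).2 z
    linarith
  have hC0 : 0 ≤ |C| := abs_nonneg C
  set K1 : ℝ := Ch * (4 * |C| * M ^ 2) with hK1
  set K2 : ℝ := Cs * (18 * |C| * M ^ 2) with hK2
  have hK10 : 0 ≤ K1 := by positivity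
  have hK20 : 0 ≤ K2 := by positivity
  refine ⟨3 * √K1 + 3 * √K2 + 1, by positivity, fun f l hf => ⟨HH g f l, HH_smooth hg hf l,
    fun z hz i => TT_id hg hf l hz i, fun z hz i => ?_⟩⟩
  have hX0 := A2_nonneg 4 f
  set X := A2 0 4 f with hX
  have up : ∀ {a : V → ℝ} {Y : ℝ} (ha : T4 a), ∫ y, a y ^ 2 ≤ Y → C * ∫ y, a y ^ 2 ≤ |C| * Y := by
    intro a Y ha hY
    have h1 : 0 ≤ ∫ y, a y ^ 2 := integral_nonneg fun y => sq_nonneg _
    calc C * ∫ y, a y ^ 2 ≤ |C| * ∫ y, a y ^ 2 :=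
          mul_le_mul_of_nonneg_right (le_abs_self C) h1
      _ ≤ |C| * Y := mul_le_mul_of_nonneg_left hY hC0
  -- first part
  have c1 : ∀ j, |pd j (pd l (KK g (vp f i j))) z| ≤ √K1 * √X := by
    intro j
    rw [← Real.sqrt_mul hK10]
    apply Real.abs_le_sqrt
    have h0 : ∀ z ∈ ball (0 : V) 2, vp f i j z = 0 := by
      intro z hz
      show pd i chi z * f z j - pd j chi z * f z i = 0
      rw [pd_chi_zero i hz, pd_chi_zero j hz]; ring
    have h1 := (hh (pd l (KK g (vp f i j))) (pd_smooth (hg.smooth _ (T4_vp hf i j)) l) 0 2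
      (by norm_num) (harm hg (T4_vp hf i j) h0 l) z (by simpa using hz) j).1
    have h2 : ∫ x in ball (0 : V) 2, pd l (KK g (vp f i j)) x ^ 2 ≤ |C| * (4 * M ^ 2 * X) := by
      refine (sq_mono (pd_smooth (hg.smooth _ (T4_vp hf i j)) l).continuous
        (ball_subset_ball (by norm_num : (2 : ℝ) ≤ 8))).trans ?_
      refine (hg.n1 _ (T4_vp hf i j) l).trans (up (T4_vp hf i j) ?_)
      exact coef_sub (T4_pd T4_chi i) (T4_pd T4_chi j) (b1 i) (b1 j) hf i j
    have h3 : 0 ≤ |C| * (4 * M ^ 2 * X) := by positivity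
    calc pd j (pd l (KK g (vp f i j))) z ^ 2
        ≤ Ch * (2 ^ 5)⁻¹ * ∫ x in ball (0 : V) 2, pd l (KK g (vp f i j)) x ^ 2 := h1
      _ ≤ Ch * (2 ^ 5)⁻¹ * (|C| * (4 * M ^ 2 * X)) :=
          mul_le_mul_of_nonneg_left h2 (by positivity)
      _ ≤ Ch * 1 * (|C| * (4 * M ^ 2 * X)) := by
          refine mul_le_mul_of_nonneg_right (mul_le_mul_of_nonneg_left ?_ hCh.le) h3
          norm_num
      _ = K1 * X := by rw [hK1]; ring
  -- second part
  have c2 : ∀ j, |pd j (KK g (ga f l i j)) z| ≤ √K2 * √X := by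
    intro j
    rw [← Real.sqrt_mul hK20]
    apply Real.abs_le_sqrt
    have h0 : ∀ z ∈ ball (0 : V) 2, ga f l i j z = 0 := by
      intro z hz
      show pd l chi z * _ = 0
      rw [pd_chi_zero l hz, zero_mul]
    have sga := hg.smooth _ (T4_ga hf l i j)
    have sw : ∀ i, ContDiff ℝ ∞ (KK g (ww f l i)) := fun i => hg.smooth _ (T4_ww hf l i)
    have sp := hg.smooth _ (T4_ps hf l i j)
    have h1 := hs _ (pd_smooth sga j) (harm hg (T4_ga hf l i j) h0 j) z hz
    have hid : ∀ x, pd j (KK g (ga f l i j)) x = (pd j (pd i (KK g (ww f l j))) x -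
        pd j (pd j (KK g (ww f l i))) x) - pd j (KK g (ps f l i j)) x := by
      intro x
      rw [KK_ga hg hf, pd_sub ((pd_smooth (sw j) i).sub (pd_smooth (sw i) j)) sp,
        pd_sub (pd_smooth (sw j) i) (pd_smooth (sw i) j)]
    have q1 : ∫ x in ball (0 : V) 8, pd j (pd i (KK g (ww f l j))) x ^ 2 ≤ |C| * (M ^ 2 * X) :=
      (hg.n2 _ (T4_ww hf l j) j i).trans (up (T4_ww hf l j)
        (coef (T4_pd T4_chi l) (b1 l) hf j))
    have q2 : ∫ x in ball (0 : V) 8, pd j (pd j (KK g (ww f l i))) x ^ 2 ≤ |C| * (M ^ 2 * X) :=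
      (hg.n2 _ (T4_ww hf l i) j j).trans (up (T4_ww hf l i)
        (coef (T4_pd T4_chi l) (b1 l) hf i))
    have q3 : ∫ x in ball (0 : V) 8, pd j (KK g (ps f l i j)) x ^ 2 ≤ |C| * (4 * M ^ 2 * X) :=
      (hg.n1 _ (T4_ps hf l i j) j).trans (up (T4_ps hf l i j)
        (coef_sub (T4_pd (T4_pd T4_chi l) i) (T4_pd (T4_pd T4_chi l) j) (b2 i l) (b2 j l) hf i j))
    have k1 := (pd_smooth (pd_smooth (sw j) i) j).continuous
    have k2 := (pd_smooth (pd_smooth (sw i) j) j).continuous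
    have k3 := (pd_smooth sp j).continuous
    have i1 : IntegrableOn (fun x => 3 * pd j (pd i (KK g (ww f l j))) x ^ 2) (ball (0 : V) 8) :=
      intOn (continuous_const.mul (k1.pow 2)) _ _
    have i2 : IntegrableOn (fun x => 3 * pd j (pd j (KK g (ww f l i))) x ^ 2) (ball (0 : V) 8) :=
      intOn (continuous_const.mul (k2.pow 2)) _ _
    have i3 : IntegrableOn (fun x => 3 * pd j (KK g (ps f l i j)) x ^ 2) (ball (0 : V) 8) :=
      intOn (continuous_const.mul (k3.pow 2)) _ _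
    have h2 : ∫ x in ball (0 : V) 8, pd j (KK g (ga f l i j)) x ^ 2 ≤
        ∫ x in ball (0 : V) 8, ((3 * pd j (pd i (KK g (ww f l j))) x ^ 2 +
          3 * pd j (pd j (KK g (ww f l i))) x ^ 2) + 3 * pd j (KK g (ps f l i j)) x ^ 2) := by
      refine setIntegral_mono_on (intOn ((pd_smooth sga j).continuous.pow 2) _ _)
        ((i1.add i2).add i3) measurableSet_ball fun x _ => ?_
      rw [hid x]
      nlinarith [sq_nonneg (pd j (pd i (KK g (ww f l j))) x + pd j (pd j (KK g (ww f l i))) x),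
        sq_nonneg (pd j (pd i (KK g (ww f l j))) x + pd j (KK g (ps f l i j)) x),
        sq_nonneg (pd j (pd j (KK g (ww f l i))) x - pd j (KK g (ps f l i j)) x)]
    have h3 : ∫ x in ball (0 : V) 8, ((3 * pd j (pd i (KK g (ww f l j))) x ^ 2 +
          3 * pd j (pd j (KK g (ww f l i))) x ^ 2) + 3 * pd j (KK g (ps f l i j)) x ^ 2) =
        3 * (∫ x in ball (0 : V) 8, pd j (pd i (KK g (ww f l j))) x ^ 2) +
        3 * (∫ x in ball (0 : V) 8, pd j (pd j (KK g (ww f l i))) x ^ 2) +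
        3 * ∫ x in ball (0 : V) 8, pd j (KK g (ps f l i j)) x ^ 2 := by
      have i12 : IntegrableOn (fun x => 3 * pd j (pd i (KK g (ww f l j))) x ^ 2 +
          3 * pd j (pd j (KK g (ww f l i))) x ^ 2) (ball (0 : V) 8) := i1.add i2
      rw [integral_add i12 i3, integral_add i1 i2, integral_const_mul,
        integral_const_mul, integral_const_mul]
    have h4 := sq_mono (pd_smooth sga j).continuous
      (ball_subset_ball (by norm_num : (2 : ℝ) ≤ 8) : ball (0 : V) 2 ⊆ ball 0 8)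
    have h5 : ∫ x in ball (0 : V) 2, pd j (KK g (ga f l i j)) x ^ 2 ≤ 18 * |C| * M ^ 2 * X := by
      nlinarith
    calc pd j (KK g (ga f l i j)) z ^ 2
        ≤ Cs * ∫ x in ball (0 : V) 2, pd j (KK g (ga f l i j)) x ^ 2 := h1
      _ ≤ Cs * (18 * |C| * M ^ 2 * X) := mul_le_mul_of_nonneg_left h5 hCs.le
      _ = K2 * X := by rw [hK2]; ring
  have d1 : |∑ j, pd j (pd l (KK g (vp f i j))) z| ≤ 3 * (√K1 * √X) := by
    refine (Finset.abs_sum_le_sum_abs _ _).trans ?_
    refine (Finset.sum_le_sum fun j _ => c1 j).trans (le_of_eq ?_)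
    simp
  have d2 : |∑ j, pd j (KK g (ga f l i j)) z| ≤ 3 * (√K2 * √X) := by
    refine (Finset.abs_sum_le_sum_abs _ _).trans ?_
    refine (Finset.sum_le_sum fun j _ => c2 j).trans (le_of_eq ?_)
    simp
  have hXs : 0 ≤ √X := Real.sqrt_nonneg X
  have d3 : |HH g f l z i| ≤ |∑ j, pd j (pd l (KK g (vp f i j))) z| +
      |∑ j, pd j (KK g (ga f l i j)) z| := by
    show |-(∑ j, pd j (pd l (KK g (vp f i j))) z) - ∑ j, pd j (KK g (ga f l i j)) z| ≤ _
    refine (abs_sub _ _).trans ?_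
    rw [abs_neg]
  nlinarith

end Pool.Agent.W22.ME.TD
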